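import Pool.Agent.H34.N6.LibB
import Pool.Agent.H32.SAB.TargetsT
import Pool.Agent.H32.QC.TargetsL

/-!
# Two quadrics in `ℙ⁶`: good places
-/

set_option autoImplicit false

open Polynomial NumberField IsDedekindDomain Matrix Pool.Agent.H32.QC Pool.Agent.H34.N6

namespace Pool.Agent.H32.N6

/-- integral diagonalisation of a unimodular form at an odd place -/
def T_BDG : Prop := ∀ (F : Type) [NormedField F] [IsUltrametricDist F], ‖(2 : F)‖ = 1 →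
  ∀ (n : ℕ) (A : Matrix (Fin n) (Fin n) F), A.IsSymm → (∀ i j, ‖A i j‖ ≤ 1) → ‖A.det‖ = 1 →
  ∃ (C : Matrix (Fin n) (Fin n) F) (u : Fin n → F), C.det ≠ 0 ∧ (∀ i, ‖u i‖ = 1) ∧
    Cᵀ * A * C = Matrix.diagonal u

/-- three unit entries of a diagonal form are a hyperbolic plane and a unit -/
def T_BTD : Prop := ∀ (F : Type) [NontriviallyNormedField F] [IsUltrametricDist F]
  [ProperSpace F] [CharZero F], ‖(2 : F)‖ = 1 → ∀ (n : ℕ) (u : Fin (n + 3) → F),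
  (∀ i, u i ≠ 0) → ‖u 0‖ = 1 → ‖u 1‖ = 1 → ‖u 2‖ = 1 → ∀ r : ℕ,
  (TI (Matrix.diagonal u) (r + 1) ↔
    TI (Matrix.diagonal (Fin.cons (-(u 0 * u 1 * u 2))
      (fun i : Fin n => u i.succ.succ.succ) : Fin (n + 1) → F)) r)

/-- the determinant of a member of the pencil -/
def T_BDE : Prop := ∀ (F : Type) [Field F] (P D : F[X]) (t : F), P.Monic → P.natDegree = 7 →
  (ft P D t).det = -eval t P * (gA P D 0).det

/-- the determinant of the second form is a unit -/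
def T_BUD : Prop := ∀ (F : Type) [NormedField F] [IsUltrametricDist F] (P D : F[X]), P.Monic →
  P.natDegree = 7 → (∀ i, ‖P.coeff i‖ ≤ 1) → (∀ i, ‖D.coeff i‖ ≤ 1) →
  (∃ a b : F[X], (∀ i, ‖a.coeff i‖ ≤ 1) ∧ (∀ i, ‖b.coeff i‖ ≤ 1) ∧ a * P + b * D = 1) →
  ‖(gA P D 0).det‖ = 1

/-- the entries are integral -/
def T_BIN : Prop := ∀ (F : Type) [NormedField F] [IsUltrametricDist F] (P g : F[X]), P.Monic →
  (∀ i, ‖P.coeff i‖ ≤ 1) → (∀ i, ‖g.coeff i‖ ≤ 1) → ‖lam P g‖ ≤ 1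

/-- the root near a point where the polynomial is small -/
def T_BRO : Prop := ∀ (F : Type) [NontriviallyNormedField F] [IsUltrametricDist F]
  [ProperSpace F] [CharZero F] (P : F[X]) (t : F), ‖(2 : F)‖ = 1 → P.Monic →
  P.natDegree = 7 → (∀ i, ‖P.coeff i‖ ≤ 1) →
  (∃ a b : F[X], (∀ i, ‖a.coeff i‖ ≤ 1) ∧ (∀ i, ‖b.coeff i‖ ≤ 1) ∧
    a * P + b * derivative P = 1) → ‖t‖ ≤ 1 → ‖eval t P‖ < 1 →
  ∃ e : F, eval e P = 0 ∧ ‖e - t‖ < 1 ∧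
    ∀ e' : F, eval e' P = 0 → ‖e' - t‖ < 1 → e' = e ∧ ∃ P1 : F[X], P = (X - C e) * P1 ∧
      P1.Monic ∧ P1.natDegree = 6 ∧ (∀ i, ‖P1.coeff i‖ ≤ 1) ∧ ‖eval e P1‖ = 1 ∧
      ‖eval t P1‖ = 1 ∧ IsSquare (eval t P1 * eval e P1)

/-- the diagonal form near a root -/
def T_BDC : Prop := ∀ (F : Type) [NontriviallyNormedField F] [IsUltrametricDist F]
  [ProperSpace F] [CharZero F] (P D P1 : F[X]) (t e : F), ‖(2 : F)‖ = 1 → P.Monic →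
  P.natDegree = 7 → (∀ i, ‖P.coeff i‖ ≤ 1) → (∀ i, ‖D.coeff i‖ ≤ 1) →
  ‖(gA P D 0).det‖ = 1 → IsSquare (-(gA P D 0).det) → ‖t‖ ≤ 1 → ‖e‖ ≤ 1 → eval t P ≠ 0 →
  P = (X - C e) * P1 → P1.Monic → P1.natDegree = 6 → (∀ i, ‖P1.coeff i‖ ≤ 1) →
  ‖eval e P1‖ = 1 → ‖eval t P1‖ = 1 → IsSquare (eval t P1 * eval e P1) → ‖eval e D‖ = 1 →
  ∃ (C : Matrix (Fin 7) (Fin 7) F) (u : Fin 6 → F) (w : F), C.det ≠ 0 ∧ (∀ i, ‖u i‖ = 1) ∧
    w ≠ 0 ∧ ‖w‖ = ‖e - t‖ ∧ IsSquare (-(∏ i, u i) * eval e D) ∧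
    Cᵀ * ft P D t * C = Matrix.diagonal (Fin.snoc u w : Fin 7 → F)

end Pool.Agent.H32.N6
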