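import Pool.Agent.H23.QCF.LocalAll
import Pool.Agent.H7.N6B.BDC
import Pool.Agent.H29.N6B.BDE
import Pool.Agent.H79.N6B.BDG
import Pool.Agent.H69.N6B.BG1
import Pool.Agent.H17.N6B.BG2
import Pool.Agent.H50.N6B.BIN
import Pool.Agent.H50.N6B.BRO
import Pool.Agent.H16.N6B.BTD
import Pool.Agent.H65.N6B.BUD
import Pool.Agent.H81.SAB.TIC
import Pool.Agent.H44.SAB.TIH
import Pool.Agent.H79.SAB.EXC
import Pool.Agent.H89.SAB.HYP
import Pool.Agent.H32.N6V.GB3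

/-!
# Two quadrics in `ℙ⁶`: the block of the good places, assembled
-/

set_option autoImplicit false

namespace Pool.Agent.H32.N6.AllB

open Pool.Agent.H32.N6 Pool.Agent.H34.N6 Pool.Agent.H34.N6V

theorem bdg : T_BDG := Pool.Agent.H79.N6B.pf_BDG
theorem bin : T_BIN := Pool.Agent.H50.N6B.pf_BIN
theorem bde : T_BDE := Pool.Agent.H29.N6B.pf_BDE
theorem bud : T_BUD := Pool.Agent.H65.N6B.pf_BUD bin
theorem bro : T_BRO := Pool.Agent.H50.N6B.pf_BRO Pool.Agent.H23.QCF.LA.hen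
theorem bdc : T_BDC := Pool.Agent.H7.N6B.pf_BDC bdg bde bin
theorem tic : Pool.Agent.H32.SAB.T_TIC := Pool.Agent.H81.SAB.pf_TIC
theorem tih : Pool.Agent.H32.SAB.T_TIH := Pool.Agent.H44.SAB.pf_TIH Pool.Agent.H79.SAB.pf_EXC
theorem btd : T_BTD := Pool.Agent.H16.N6B.pf_BTD Pool.Agent.H23.QCF.LA.unr
  Pool.Agent.H89.SAB.pf_HYP tih
theorem gb1 : T_GB1 := Pool.Agent.H69.N6B.pf_BG1 bdg btd bde bud bin bro bdc tic
theorem gb2 : T_GB2 := Pool.Agent.H17.N6B.pf_BG2 btd bud bro bdc tic Pool.Agent.H23.QCF.LA.tam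
theorem gb3 : T_GB3 := Pool.Agent.H32.N6V.pf_GB3 bdg btd bde bud bin tic

end Pool.Agent.H32.N6.AllB
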