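import Pool.Agent.H32.N6.NF

/-!
# Two quadrics in `ℙ⁶`: the statement for polynomials
-/

set_option autoImplicit false

open Polynomial NumberField IsDedekindDomain Matrix Pool.Agent.H32.QC Pool.Agent.H34.N6

namespace Pool.Agent.H32.N6

open Pool.Agent.H32.SAB (hes T_HES T_SMO)

theorem map_id_eq {K : Type} [Field K] {n : ℕ} (A : Matrix (Fin n) (Fin n) K) :
    A.map (RingHom.id K) = A := by
  ext i j
  rfl

/-- common zeros of the polynomials and of the Hessian matrices -/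
theorem cz_of_poly (hHES : T_HES) {K : Type} [Field K] {f₁ f₂ : MvPolynomial (Fin 7) K}
    (h1 : f₁.IsHomogeneous 2) (h2 : f₂.IsHomogeneous 2) {E : Type} [Field E] (φ : K →+* E)
    (h : ∃ x : Fin 7 → E, x ≠ 0 ∧ MvPolynomial.eval₂ φ x f₁ = 0 ∧
      MvPolynomial.eval₂ φ x f₂ = 0) : CZ ((hes f₁).map φ) ((hes f₂).map φ) := by
  obtain ⟨x, hx, ha, hb⟩ := h
  refine ⟨x, hx, ?_, ?_⟩
  · have h3 := ((hHES K 7 f₁ h1).2 E φ x).1
    rw [ha, mul_zero] at h3
    exact h3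
  · have h3 := ((hHES K 7 f₂ h2).2 E φ x).1
    rw [hb, mul_zero] at h3
    exact h3

theorem poly_of_cz (hHES : T_HES) {K : Type} [Field K] (hK : (2 : K) ≠ 0)
    {f₁ f₂ : MvPolynomial (Fin 7) K} (h1 : f₁.IsHomogeneous 2) (h2 : f₂.IsHomogeneous 2)
    (h : CZ (hes f₁) (hes f₂)) :
    ∃ x : Fin 7 → K, x ≠ 0 ∧ MvPolynomial.eval x f₁ = 0 ∧ MvPolynomial.eval x f₂ = 0 := by
  obtain ⟨x, hx, ha, hb⟩ := h
  refine ⟨x, hx, ?_, ?_⟩
  · have h3 := ((hHES K 7 f₁ h1).2 K (RingHom.id K) x).1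
    rw [map_id_eq, ha] at h3
    exact (mul_eq_zero.1 h3.symm).resolve_left hK
  · have h3 := ((hHES K 7 f₂ h2).2 K (RingHom.id K) x).1
    rw [map_id_eq, hb] at h3
    exact (mul_eq_zero.1 h3.symm).resolve_left hK

theorem irr_swap' {F : Type} [Field F] {n : ℕ} {A B : Matrix (Fin n) (Fin n) F}
    (h : Irreducible (A.map (C : F →+* F[X]) - (X : F[X]) • B.map (C : F →+* F[X])).det) :
    Irreducible ((X : F[X]) • B.map (C : F →+* F[X]) - A.map (C : F →+* F[X])).det := by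
  rw [det_swap] at h
  have hu : IsUnit ((-1 : F[X]) ^ n) := (isUnit_one.neg).pow n
  exact ((associated_unit_mul_right _ _ hu).symm).irreducible h

theorem deg_swap' {F : Type} [Field F] {n m : ℕ} {A B : Matrix (Fin n) (Fin n) F}
    (h : (A.map (C : F →+* F[X]) - (X : F[X]) • B.map (C : F →+* F[X])).det.natDegree = m) :
    ((X : F[X]) • B.map (C : F →+* F[X]) - A.map (C : F →+* F[X])).det.natDegree = m := by
  rw [← deg_swap]
  exact h

theorem det_up {F E : Type} [Field F] [Field E] (φ : F →+* E) {n : ℕ}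
    (A B : Matrix (Fin n) (Fin n) F) :
    ((A.map φ).map (C : E →+* E[X]) - (X : E[X]) • (B.map φ).map (C : E →+* E[X])).det =
      ((A.map (C : F →+* F[X]) - (X : F[X]) • B.map (C : F →+* F[X])).det).map φ := by
  have h1 : (A.map φ).map (C : E →+* E[X]) - (X : E[X]) • (B.map φ).map (C : E →+* E[X]) =
      (Polynomial.mapRingHom φ).mapMatrix
        (A.map (C : F →+* F[X]) - (X : F[X]) • B.map (C : F →+* F[X])) := by
    ext1 i j
    rw [RingHom.mapMatrix_apply, Matrix.map_apply, Matrix.sub_apply, Matrix.sub_apply,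
      Matrix.smul_apply, Matrix.smul_apply, Matrix.map_apply, Matrix.map_apply,
      Matrix.map_apply, Matrix.map_apply, Matrix.map_apply, Matrix.map_apply, map_sub,
      smul_eq_mul, smul_eq_mul, map_mul, Polynomial.coe_mapRingHom, Polynomial.map_C,
      Polynomial.map_C, Polynomial.map_X]
  rw [h1, ← RingHom.map_det]
  rfl

theorem symm_map {F E : Type} [Field F] [Field E] (φ : F →+* E) {n : ℕ}
    {A : Matrix (Fin n) (Fin n) F} (h : A.IsSymm) : (A.map φ).IsSymm := by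
  unfold Matrix.IsSymm
  rw [← Matrix.transpose_map, h.eq]

theorem smo_up (hSMO : T_SMO) {F E : Type} [Field F] [Field E] [CharZero E] [CharZero F]
    (φ : F →+* E) {n : ℕ} {A B : Matrix (Fin n) (Fin n) F} (hA : A.IsSymm) (hB : B.IsSymm)
    (hirr : Irreducible (A.map (C : F →+* F[X]) - (X : F[X]) • B.map (C : F →+* F[X])).det)
    (hdeg : (A.map (C : F →+* F[X]) - (X : F[X]) • B.map (C : F →+* F[X])).det.natDegree = n)
    {x : Fin n → E} (hx : x ≠ 0) (ha : x ⬝ᵥ (A.map φ) *ᵥ x = 0)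
    (hb : x ⬝ᵥ (B.map φ) *ᵥ x = 0) :
    LinearIndependent E ![(A.map φ) *ᵥ x, (B.map φ) *ᵥ x] := by
  have h1 := det_up φ A B
  refine hSMO E n (A.map φ) (B.map φ) (symm_map φ hA) (symm_map φ hB) ?_ ?_ x hx ha hb
  · rw [h1]
    exact hirr.separable.map
  · rw [h1, Polynomial.natDegree_map]
    exact hdeg

/-- the Hasse principle -/
theorem hasse (hHES : T_HES) (hMAIN : T_MAIN) (K : Type) [Field K] [NumberField K]
    (f₁ f₂ : MvPolynomial (Fin 7) K) (h1 : f₁.IsHomogeneous 2) (h2 : f₂.IsHomogeneous 2)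
    (hirr : Irreducible ((hes f₁).map (C : K →+* K[X]) -
      (X : K[X]) • (hes f₂).map (C : K →+* K[X])).det)
    (hdeg : ((hes f₁).map (C : K →+* K[X]) -
      (X : K[X]) • (hes f₂).map (C : K →+* K[X])).det.natDegree = 7)
    (hR : ∀ φ : K →+* ℝ, ∃ x : Fin 7 → ℝ, x ≠ 0 ∧
      MvPolynomial.eval₂ φ x f₁ = 0 ∧ MvPolynomial.eval₂ φ x f₂ = 0)
    (hF : ∀ v : HeightOneSpectrum (𝓞 K), ∃ x : Fin 7 → v.adicCompletion K, x ≠ 0 ∧
      MvPolynomial.eval₂ (algebraMap K (v.adicCompletion K)) x f₁ = 0 ∧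
      MvPolynomial.eval₂ (algebraMap K (v.adicCompletion K)) x f₂ = 0) :
    ∃ x : Fin 7 → K, x ≠ 0 ∧ MvPolynomial.eval x f₁ = 0 ∧ MvPolynomial.eval x f₂ = 0 := by
  have h2K : (2 : K) ≠ 0 := two_ne_zero
  have hloc : LocCZ (hes f₁) (hes f₂) := by
    intro w
    cases w with
    | inl v => exact cz_of_poly hHES h1 h2 (ic v) (hF v)
    | inr φ => exact cz_of_poly hHES h1 h2 φ (hR φ)
  exact poly_of_cz hHES h2K h1 h2 (hMAIN K (hes f₁) (hes f₂) (hHES K 7 f₁ h1).1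
    (hHES K 7 f₂ h2).1 (irr_swap' hirr) (deg_swap' hdeg) hloc)

/-- smoothness -/
theorem smooth (hHES : T_HES) (hSMO : T_SMO) (K : Type) [Field K] [CharZero K]
    (f₁ f₂ : MvPolynomial (Fin 7) K) (h1 : f₁.IsHomogeneous 2) (h2 : f₂.IsHomogeneous 2)
    (hirr : Irreducible ((hes f₁).map (C : K →+* K[X]) -
      (X : K[X]) • (hes f₂).map (C : K →+* K[X])).det)
    (hdeg : ((hes f₁).map (C : K →+* K[X]) -
      (X : K[X]) • (hes f₂).map (C : K →+* K[X])).det.natDegree = 7)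
    (x : Fin 7 → AlgebraicClosure K) (hx : x ≠ 0)
    (ha : MvPolynomial.eval₂ (algebraMap K (AlgebraicClosure K)) x f₁ = 0)
    (hb : MvPolynomial.eval₂ (algebraMap K (AlgebraicClosure K)) x f₂ = 0) :
    LinearIndependent (AlgebraicClosure K)
      ![fun i => MvPolynomial.eval₂ (algebraMap K (AlgebraicClosure K)) x
          (MvPolynomial.pderiv i f₁),
        fun i => MvPolynomial.eval₂ (algebraMap K (AlgebraicClosure K)) x
          (MvPolynomial.pderiv i f₂)] := by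
  set φ : K →+* AlgebraicClosure K := algebraMap K (AlgebraicClosure K) with hφ
  have hA := hHES K 7 f₁ h1
  have hB := hHES K 7 f₂ h2
  have hA0 : x ⬝ᵥ ((hes f₁).map φ) *ᵥ x = 0 := by
    rw [(hA.2 _ φ x).1, ha, mul_zero]
  have hB0 : x ⬝ᵥ ((hes f₂).map φ) *ᵥ x = 0 := by
    rw [(hB.2 _ φ x).1, hb, mul_zero]
  have h5 := smo_up hSMO φ hA.1 hB.1 hirr hdeg hx hA0 hB0
  have h6 : ((hes f₁).map φ) *ᵥ x = fun i => MvPolynomial.eval₂ φ x (MvPolynomial.pderiv i f₁) :=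
    funext fun i => (hA.2 _ φ x).2 i
  have h7 : ((hes f₂).map φ) *ᵥ x = fun i => MvPolynomial.eval₂ φ x (MvPolynomial.pderiv i f₂) :=
    funext fun i => (hB.2 _ φ x).2 i
  rw [h6, h7] at h5
  exact h5

end Pool.Agent.H32.N6
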