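import Pool.Agent.H32.N6.AllB
import Pool.Agent.H32.N6.Final
import Pool.Agent.H32.SABP.NFM
import Pool.Agent.H32.SABP.SMO
import Pool.Agent.H32.SABP.AMB
import Pool.Agent.H16.SAB.LAM
import Pool.Agent.H16.SAB.HES
import Pool.Agent.H93.SAB.CYC
import Pool.Agent.H26.SAB.ODC
import Pool.Agent.H44.SAB.SPR
import Pool.Agent.H89.SAB.IRR
import Pool.Agent.H34.N6.AsmC
import Pool.Agent.H13.N6E.Dev
import Pool.Agent.H28.N6D.LocalLemma
import Pool.Agent.H65.N6P.All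
import Pool.Agent.H5.QH.All

/-!
# Two quadrics in `ℙ⁶`: the theorem with irreducible discriminant
-/

set_option autoImplicit false

namespace Pool.Agent.H32.N6.AllIrr

open Pool.Agent.H32.N6 Pool.Agent.H34.N6

theorem odc : Pool.Agent.H32.SAB.T_ODC := Pool.Agent.H26.SAB.pf_ODC Pool.Agent.H44.SAB.pf_SPR
  Pool.Agent.H32.SABP.pf_AMB Pool.Agent.H89.SAB.pf_IRR
theorem nfm : Pool.Agent.H32.SAB.T_NFM := Pool.Agent.H32.SABP.pf_NFM Pool.Agent.H16.SAB.pf_LAM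
  Pool.Agent.H93.SAB.pf_CYC
theorem nf : T_NF := pf_NF nfm
theorem hes : Pool.Agent.H32.SAB.T_HES := Pool.Agent.H16.SAB.pf_HES
theorem smo : Pool.Agent.H32.SAB.T_SMO := Pool.Agent.H32.SABP.pf_SMO
theorem lfm : T_LFM := Pool.Agent.H65.N6P.p_LFM Pool.Agent.H28.N6D.LL7
theorem core (hLR : T_LR) (hF2 : T_F2S) : T_CORE :=
  pf_COREM Pool.Agent.H23.QCF.LA.adc odc lfm hLR Pool.Agent.H13.N6E.dev
    Pool.Agent.H5.QH.All.split7 AllB.gb1 AllB.gb2 hF2 Pool.Agent.H13.N6E.dSPP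
theorem main (hLR : T_LR) (hF2 : T_F2S) : T_MAIN := pf_MAIN nf (core hLR hF2)

end Pool.Agent.H32.N6.AllIrr
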