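import Pool.Agent.H32.SAB.TargetsT

/-!
# Cyclic vectors of a matrix with separable characteristic polynomial
-/

set_option autoImplicit false

open Polynomial Matrix

namespace Pool.Agent.H32.N6

section

variable {F : Type} [Field F] {n : ℕ}

theorem aeval_eig {M : Matrix (Fin n) (Fin n) F} {u : Fin n → F} {α : F} (h : M *ᵥ u = α • u)
    (g : F[X]) : aeval M g *ᵥ u = eval α g • u := by
  have hpow : ∀ i : ℕ, (M ^ i) *ᵥ u = α ^ i • u := by
    intro i
    induction i with
    | zero => simp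
    | succ i ih =>
      rw [pow_succ, ← Matrix.mulVec_mulVec, h, Matrix.mulVec_smul, ih, smul_smul, pow_succ,
        mul_comm]
  induction g using Polynomial.induction_on' with
  | add p q hp hq => rw [map_add, Matrix.add_mulVec, hp, hq, eval_add, add_smul]
  | monomial i a =>
    rw [← C_mul_X_pow_eq_monomial, map_mul, map_pow, aeval_X, aeval_C, eval_mul, eval_pow, eval_X,
      eval_C, Algebra.algebraMap_eq_smul_one, Matrix.smul_mul, Matrix.one_mul, Matrix.smul_mulVec,
      hpow, smul_smul]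

theorem aeval_map_mat {E : Type} [Field E] (ι : F →+* E) (M : Matrix (Fin n) (Fin n) F)
    (g : F[X]) : aeval (M.map ι) (g.map ι) = (aeval M g).map ι := by
  induction g using Polynomial.induction_on' with
  | add p q hp hq =>
    rw [Polynomial.map_add, map_add, map_add, hp, hq, Matrix.map_add _ (map_add ι)]
  | monomial i a =>
    rw [← C_mul_X_pow_eq_monomial, Polynomial.map_mul, Polynomial.map_pow, map_X, map_C, map_mul,
      map_mul, map_pow, map_pow, aeval_X, aeval_X, aeval_C, aeval_C,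
      Algebra.algebraMap_eq_smul_one, Algebra.algebraMap_eq_smul_one, Matrix.smul_mul,
      Matrix.one_mul, Matrix.smul_mul, Matrix.one_mul]
    have h1 : (M ^ i).map ι = (M.map ι) ^ i := by
      have := map_pow ι.mapMatrix M i
      simpa [RingHom.mapMatrix_apply] using this
    ext a' b'
    rw [Matrix.map_apply, Matrix.smul_apply, Matrix.smul_apply, smul_eq_mul, smul_eq_mul, map_mul,
      ← h1, Matrix.map_apply]

theorem cof_ne {M : Matrix (Fin n) (Fin n) F} (hsep : M.charpoly.Separable) {Q R : F[X]}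
    (h : M.charpoly = Q * R) (hQ : Irreducible Q) : aeval M R ≠ 0 := by
  intro h0
  have hco : IsCoprime Q R := (by rw [← h]; exact hsep : (Q * R).Separable).isCoprime
  set ι := algebraMap F (AlgebraicClosure F)
  have hdeg : (Q.map ι).degree ≠ 0 := by
    rw [degree_map]
    exact (degree_pos_of_irreducible hQ).ne'
  obtain ⟨α, hα⟩ := IsAlgClosed.exists_root (Q.map ι) hdeg
  have h1 : eval α (M.map ι).charpoly = 0 := by
    have h2 : (M.map ι).charpoly = M.charpoly.map ι := Matrix.charpoly_map M ι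
    rw [h2, h, Polynomial.map_mul, eval_mul, hα.eq_zero, zero_mul]
  rw [Matrix.eval_charpoly] at h1
  obtain ⟨u, hu, hMu⟩ := Matrix.exists_mulVec_eq_zero_iff.2 h1
  have h3 : (M.map ι) *ᵥ u = α • u := by
    rw [Matrix.sub_mulVec, sub_eq_zero] at hMu
    rw [← hMu, Matrix.scalar_apply, ← Matrix.smul_one_eq_diagonal, Matrix.smul_mulVec,
      Matrix.one_mulVec]
  have h4 := aeval_eig h3 (R.map ι)
  rw [aeval_map_mat, h0] at h4
  have h5 : (0 : Matrix (Fin n) (Fin n) F).map ι = 0 := by
    ext i j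
    simp
  rw [h5, Matrix.zero_mulVec] at h4
  have h6 : eval α (R.map ι) = 0 := by
    rcases smul_eq_zero.1 h4.symm with h | h
    · exact h
    · exact absurd h hu
  obtain ⟨a, b, hab⟩ := hco
  have h7 := congrArg (fun p => eval α (p.map ι)) hab
  simp only [Polynomial.map_add, Polynomial.map_mul, Polynomial.map_one, eval_add, eval_mul,
    eval_one] at h7
  rw [h6, hα.eq_zero, mul_zero, mul_zero, add_zero] at h7
  exact zero_ne_one h7

theorem exists_cyc [Infinite F] {M : Matrix (Fin n) (Fin n) F} (hsep : M.charpoly.Separable) :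
    ∃ v : Fin n → F, ∀ g : F[X], aeval M g *ᵥ v = 0 → M.charpoly ∣ g := by
  classical
  set P := M.charpoly with hP
  have hPm : P.Monic := Matrix.charpoly_monic _
  have hP0 : P ≠ 0 := hPm.ne_zero
  set T : Finset F[X] := (UniqueFactorizationMonoid.normalizedFactors P).toFinset with hT
  have hmem : ∀ Q ∈ T, Irreducible Q ∧ Q ∣ P := by
    intro Q hQ
    rw [hT, Multiset.mem_toFinset] at hQ
    exact ⟨UniqueFactorizationMonoid.irreducible_of_normalized_factor Q hQ,
      UniqueFactorizationMonoid.dvd_of_mem_normalizedFactors hQ⟩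
  set W : F[X] → Submodule F (Fin n → F) := fun Q => LinearMap.ker (aeval M (P / Q)).mulVecLin
    with hW
  have hWne : ⊤ ∉ T.image W := by
    intro htop
    obtain ⟨Q, hQ, hQW⟩ := Finset.mem_image.1 htop
    obtain ⟨hQi, hQd⟩ := hmem Q hQ
    have h1 : P = Q * (P / Q) := (EuclideanDomain.mul_div_cancel' hQi.ne_zero hQd).symm
    apply cof_ne hsep h1 hQi
    have h2 : (aeval M (P / Q)).mulVecLin = 0 := LinearMap.ker_eq_top.1 hQW
    rw [← Matrix.toLin'_apply'] at h2
    exact (Matrix.toLin' (R := F)).map_eq_zero_iff.1 h2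
  have hne := Subspace.biUnion_ne_univ_of_top_notMem hWne
  obtain ⟨v, hv⟩ := (Set.ne_univ_iff_exists_notMem _).1 hne
  refine ⟨v, fun g hg => ?_⟩
  by_contra hnd
  have hv' : ∀ Q ∈ T, aeval M (P / Q) *ᵥ v ≠ 0 := by
    intro Q hQ h0
    apply hv
    rw [Set.mem_iUnion₂]
    refine ⟨W Q, Finset.mem_image_of_mem W hQ, ?_⟩
    exact h0
  have hPM : aeval M P = 0 := Matrix.aeval_self_charpoly M
  set d := EuclideanDomain.gcd g P with hd
  have hdv : aeval M d *ᵥ v = 0 := by
    rw [hd, EuclideanDomain.gcd_eq_gcd_ab, mul_comm g, map_add, Matrix.add_mulVec, map_mul,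
      map_mul, hPM, zero_mul, Matrix.zero_mulVec, add_zero, ← Matrix.mulVec_mulVec, hg,
      Matrix.mulVec_zero]
  obtain ⟨R, hR⟩ := EuclideanDomain.gcd_dvd_right g P
  rw [← hd] at hR
  have hR0 : R ≠ 0 := by
    rintro rfl
    rw [mul_zero] at hR
    exact hP0 hR
  have hRu : ¬ IsUnit R := by
    intro hu
    apply hnd
    refine dvd_trans ?_ (EuclideanDomain.gcd_dvd_left g P)
    rw [← hd]
    obtain ⟨u, hu⟩ := hu
    refine ⟨(↑u⁻¹ : F[X]), ?_⟩
    rw [hR, ← hu, mul_assoc, Units.mul_inv, mul_one]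
  obtain ⟨Q', hQ'i, hQ'R⟩ := WfDvdMonoid.exists_irreducible_factor hRu hR0
  have hQ'P : Q' ∣ P := hQ'R.trans ⟨d, by rw [hR, mul_comm]⟩
  obtain ⟨Q, hQT, hQQ⟩ := UniqueFactorizationMonoid.exists_mem_normalizedFactors_of_dvd hP0
    hQ'i hQ'P
  have hQR : Q ∣ R := hQQ.symm.dvd.trans hQ'R
  obtain ⟨R', hR'⟩ := hQR
  have hQT' : Q ∈ T := by
    rw [hT, Multiset.mem_toFinset]
    exact hQT
  have hQ0 : Q ≠ 0 := (hmem Q hQT').1.ne_zero
  have h8 : P / Q = R' * d := by
    have h9 : P = Q * (R' * d) := by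
      rw [hR, hR']
      ring
    rw [h9]
    exact mul_div_cancel_left₀ _ hQ0
  apply hv' Q hQT'
  rw [h8, map_mul, ← Matrix.mulVec_mulVec, hdv, Matrix.mulVec_zero]

theorem cyc_det {M : Matrix (Fin n) (Fin n) F} {v : Fin n → F}
    (hv : ∀ g : F[X], aeval M g *ᵥ v = 0 → M.charpoly ∣ g) :
    (Matrix.of fun i j : Fin n => ((M ^ (j : ℕ)) *ᵥ v) i).det ≠ 0 := by
  intro hdet
  obtain ⟨c, hc, hN⟩ := Matrix.exists_mulVec_eq_zero_iff.2 hdet
  set g : F[X] := ∑ j : Fin n, C (c j) * X ^ (j : ℕ) with hg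
  have hcoef : ∀ j : Fin n, g.coeff j = c j := by
    intro j
    rw [hg, finsetSum_coeff, Finset.sum_eq_single j]
    · simp
    · intro i _ hi
      rw [coeff_C_mul, coeff_X_pow, if_neg, mul_zero]
      intro h
      exact hi (Fin.ext h.symm)
    · intro h; exact absurd (Finset.mem_univ j) h
  have hg0 : g ≠ 0 := by
    intro h
    apply hc
    funext j
    rw [← hcoef j, h]
    simp
  have hdeg : g.degree < n := by
    rw [hg]
    refine (degree_sum_le _ _).trans_lt ?_
    refine (Finset.sup_lt_iff (α := WithBot ℕ) (WithBot.bot_lt_coe n)).2 ?_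
    intro j _
    refine (degree_C_mul_X_pow_le _ _).trans_lt ?_
    exact Nat.cast_withBot _ ▸ WithBot.coe_lt_coe.2 j.2
  have hp : M.charpoly.degree = n := by
    rw [Matrix.charpoly_degree_eq_dim]
    simp
  have hgv : (aeval M g) *ᵥ v = 0 := by
    rw [← hN, hg, map_sum]
    funext i
    rw [Matrix.mulVec, Matrix.mulVec, dotProduct, dotProduct]
    simp only [Matrix.sum_apply, Finset.sum_mul]
    rw [Finset.sum_comm]
    refine Finset.sum_congr rfl fun j _ => ?_
    rw [Matrix.of_apply, Matrix.mulVec, dotProduct, Finset.sum_mul]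
    refine Finset.sum_congr rfl fun l _ => ?_
    rw [map_mul, aeval_C, map_pow, aeval_X, Algebra.algebraMap_eq_smul_one, Matrix.smul_mul,
      Matrix.one_mul, Matrix.smul_apply, smul_eq_mul]
    ring
  have h1 := degree_le_of_dvd (hv g hgv) hg0
  rw [hp] at h1
  exact absurd hdeg (not_lt.2 h1)

end

end Pool.Agent.H32.N6
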