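import Pool.Agent.H34.N6.LibB
import Pool.Agent.H32.SAB.TargetsT

/-!
# Two quadrics in `ℙ⁶`: the normal form and the theorem for two matrices
-/

set_option autoImplicit false

open Polynomial NumberField IsDedekindDomain Matrix Pool.Agent.H32.QC Pool.Agent.H34.N6

namespace Pool.Agent.H32.N6

section

variable {F : Type} [Field F]

theorem gA_scale (P D : F[X]) (s : F) (i : ℕ) : gA P (C s * D) i = s • gA P D i := by
  ext a b
  rw [Matrix.smul_apply, smul_eq_mul]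
  show lam P (C s * D * X ^ ((a : ℕ) + (b : ℕ) + i)) = s * lam P (D * X ^ ((a : ℕ) + (b : ℕ) + i))
  rw [← lam_C_mul, mul_assoc]

theorem gA_eq {P : F[X]} (hn : P.natDegree = 7) (D : F[X]) (s : ℕ) :
    Pool.Agent.H32.SAB.gA P D s = gA P D s := by
  ext i j
  unfold Pool.Agent.H32.SAB.gA Pool.Agent.H32.SAB.lam gA lam
  rw [hn]
  rfl

theorem sq_aux (g : F) : IsSquare (-((-g) ^ 7 * g)) := ⟨g ^ 4, by ring⟩

theorem det_smul7 (s : F) (G : Matrix (Fin 7) (Fin 7) F) : (s • G).det = s ^ 7 * G.det := by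
  rw [Matrix.det_smul, Fintype.card_fin]

theorem det_swap {n : ℕ} (A B : Matrix (Fin n) (Fin n) F) :
    (A.map (C : F →+* F[X]) - (X : F[X]) • B.map (C : F →+* F[X])).det =
      (-1) ^ n * ((X : F[X]) • B.map (C : F →+* F[X]) - A.map (C : F →+* F[X])).det := by
  rw [← neg_sub, Matrix.det_neg, Fintype.card_fin]

theorem irr_swap {n : ℕ} {A B : Matrix (Fin n) (Fin n) F}
    (h : Irreducible ((X : F[X]) • B.map (C : F →+* F[X]) - A.map (C : F →+* F[X])).det) :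
    Irreducible (A.map (C : F →+* F[X]) - (X : F[X]) • B.map (C : F →+* F[X])).det := by
  rw [det_swap]
  have hu : IsUnit ((-1 : F[X]) ^ n) := (isUnit_one.neg).pow n
  exact (associated_unit_mul_right _ _ hu).irreducible h

theorem deg_swap {n : ℕ} {A B : Matrix (Fin n) (Fin n) F} :
    (A.map (C : F →+* F[X]) - (X : F[X]) • B.map (C : F →+* F[X])).det.natDegree =
      ((X : F[X]) • B.map (C : F →+* F[X]) - A.map (C : F →+* F[X])).det.natDegree := by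
  rw [det_swap]
  rcases Nat.even_or_odd n with h | h
  · rw [h.neg_one_pow, one_mul]
  · rw [h.neg_one_pow, neg_one_mul, natDegree_neg]

theorem nf_aux {P D : F[X]} {A B Q : Matrix (Fin 7) (Fin 7) F} {c : F} (hPm : P.Monic)
    (hPn : P.natDegree = 7) (hPi : Irreducible P) (hD : IsCoprime P D) (hQ : Q.det ≠ 0)
    (hc : c ≠ 0) (h1 : c • (Qᵀ * A * Q) = gA P D 1) (h0 : c • (Qᵀ * B * Q) = gA P D 0) :
    ∃ (P D : F[X]) (Q : Matrix (Fin 7) (Fin 7) F) (c : F), P.Monic ∧ P.natDegree = 7 ∧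
    Irreducible P ∧ ¬ P ∣ D ∧ IsSquare (-(gA P D 0).det) ∧ c ≠ 0 ∧ IsUnit Q.det ∧
    c • (Qᵀ * A * Q) = gA P D 1 ∧ c • (Qᵀ * B * Q) = gA P D 0 := by
  have hg : (gA P D 0).det ≠ 0 := gA_det_ne hPm hPn hD
  have hs : -(gA P D 0).det ≠ 0 := neg_ne_zero.2 hg
  refine ⟨P, C (-(gA P D 0).det) * D, Q, -(gA P D 0).det * c, hPm, hPn, hPi, ?_, ?_,
    mul_ne_zero hs hc, isUnit_iff_ne_zero.2 hQ, ?_, ?_⟩
  · intro hd
    have h3 : P ∣ D := by
      have h4 : D = C (-(gA P D 0).det)⁻¹ * (C (-(gA P D 0).det) * D) := by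
        rw [← mul_assoc, ← C_mul, inv_mul_cancel₀ hs, C_1, one_mul]
      rw [h4]
      exact dvd_mul_of_dvd_right hd _
    exact hPi.not_isUnit (hD.isUnit_of_dvd h3)
  · rw [gA_scale, det_smul7]
    exact sq_aux _
  · rw [gA_scale, ← h1, smul_smul]
  · rw [gA_scale, ← h0, smul_smul]

end

theorem pf_NF (hNFM : Pool.Agent.H32.SAB.T_NFM) : T_NF := by
  intro k _ _ A B hA hB hirr hdeg
  obtain ⟨P, D, U, c, hPm, hPi, hPn, hco, hsq, hU, hc, h1, h0⟩ :=
    hNFM k A B hA hB (irr_swap hirr) (by rw [deg_swap]; exact hdeg)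
  rw [gA_eq hPn] at h1 h0
  exact nf_aux hPm hPn hPi hco hU hc h1 h0

section

variable {F : Type} [Field F] {n : ℕ}

theorem cz_swap {A B : Matrix (Fin n) (Fin n) F} (h : CZ A B) : CZ B A := by
  obtain ⟨x, hx, h1, h2⟩ := h
  exact ⟨x, hx, h2, h1⟩

theorem val_trans (A Q : Matrix (Fin n) (Fin n) F) (c : F) (x : Fin n → F) :
    x ⬝ᵥ ((c • (Qᵀ * A * Q)) *ᵥ x) = c * ((Q *ᵥ x) ⬝ᵥ (A *ᵥ (Q *ᵥ x))) := by
  rw [Matrix.smul_mulVec, dotProduct_smul, smul_eq_mul, Matrix.mul_assoc,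
    ← Matrix.mulVec_mulVec x Qᵀ, ← Matrix.mulVec_mulVec x A, dotProduct_mulVec x Qᵀ,
    Matrix.vecMul_transpose]

theorem cz_iff {A B Q : Matrix (Fin n) (Fin n) F} {c : F} (hQ : IsUnit Q.det) (hc : c ≠ 0) :
    CZ (c • (Qᵀ * A * Q)) (c • (Qᵀ * B * Q)) ↔ CZ A B := by
  constructor
  · rintro ⟨x, hx, h1, h2⟩
    rw [val_trans] at h1 h2
    refine ⟨Q *ᵥ x, ?_, ?_, ?_⟩
    · intro h
      exact hx (Matrix.eq_zero_of_mulVec_eq_zero hQ.ne_zero h)
    · exact (mul_eq_zero.1 h1).resolve_left hc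
    · exact (mul_eq_zero.1 h2).resolve_left hc
  · rintro ⟨x, hx, h1, h2⟩
    have hq : Q *ᵥ (Q⁻¹ *ᵥ x) = x := by
      rw [Matrix.mulVec_mulVec, Matrix.mul_nonsing_inv _ hQ, Matrix.one_mulVec]
    refine ⟨Q⁻¹ *ᵥ x, ?_, ?_, ?_⟩
    · intro h
      rw [h, Matrix.mulVec_zero] at hq
      exact hx hq.symm
    · rw [val_trans, hq, h1, mul_zero]
    · rw [val_trans, hq, h2, mul_zero]

theorem map_trans {E : Type} [Field E] (ι : F →+* E) (A Q : Matrix (Fin n) (Fin n) F) (c : F) :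
    (c • (Qᵀ * A * Q)).map ι = ι c • ((Q.map ι)ᵀ * A.map ι * Q.map ι) := by
  have h1 : (Qᵀ * A * Q).map ι = (Q.map ι)ᵀ * A.map ι * Q.map ι := by
    rw [Matrix.map_mul, Matrix.map_mul, Matrix.transpose_map]
  rw [← h1]
  ext i j
  rw [Matrix.map_apply, Matrix.smul_apply, Matrix.smul_apply, Matrix.map_apply, smul_eq_mul,
    smul_eq_mul, map_mul]

theorem map_cz {E : Type} [Field E] (ι : F →+* E) {A B Q : Matrix (Fin n) (Fin n) F} {c : F}
    (hQ : IsUnit Q.det) (hc : c ≠ 0) (h : CZ (A.map ι) (B.map ι)) :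
    CZ ((c • (Qᵀ * B * Q)).map ι) ((c • (Qᵀ * A * Q)).map ι) := by
  rw [map_trans, map_trans]
  refine (cz_iff ?_ ?_).2 (cz_swap h)
  · have h1 : (Q.map ι).det = ι Q.det := (RingHom.map_det ι Q).symm
    rw [h1]
    exact hQ.map ι
  · exact (map_ne_zero ι).2 hc

end

theorem pf_MAIN (hNF : T_NF) (hCORE : T_CORE) : T_MAIN := by
  intro k _ _ A B hA hB hirr hdeg hloc
  obtain ⟨P, D, Q, c, hPm, hPn, hPi, hPD, hsq, hc, hQ, h1, h0⟩ := hNF k A B hA hB hirr hdeg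
  have h3 : LocCZ (gA P D 0) (gA P D 1) := by
    intro w
    have h4 := hloc w
    rw [← h1, ← h0]
    cases w with
    | inl v => exact map_cz (ic v) hQ hc h4
    | inr φ => exact map_cz φ hQ hc h4
  have h5 := hCORE k P D hPm hPn hPi hPD hsq h3
  rw [← h1, ← h0] at h5
  exact cz_swap ((cz_iff hQ hc).1 h5)

end Pool.Agent.H32.N6
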