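import Pool.Agent.H32.N6.AllIrr
import Pool.Agent.H18.N6F.All
import Pool.Agent.H70.N6.LR

/-!
# Two quadrics in `ℙ⁶`: the theorem with irreducible discriminant, without hypotheses
-/

set_option autoImplicit false

namespace Pool.Agent.H32.N6.Top

open Pool.Agent.H32.N6 Pool.Agent.H34.N6

theorem core : T_CORE := AllIrr.core Pool.Agent.H70.N6.pf_LR Pool.Agent.H18.N6F.All.f2s
theorem main : T_MAIN := pf_MAIN AllIrr.nf core

end Pool.Agent.H32.N6.Top
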